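import Pool.Agent.Lib.MP_a0c85e_lc.H36Main

/-!
If the generalized continuum hypothesis holds at `l` and at its successor `k`, and diamond fails
on the points of cofinality `l` in `k`, then for every small family of trees with levels of
size at most `k` some normal closed Aronszajn tree on the successor of `k` is far from all of them.
-/

open Cardinal Set
open Order hiding height

namespace Pool.Agent.Results.MP_a0c85e_lc.NoUniversal

open Pool.Agent.Lib.MP_a0c85e_lc

universe u

theorem result (l : Cardinal.{u}) (hl : l.IsRegular) (h1 : 2 ^ l = succ l)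
    (h2 : 2 ^ succ l = succ (succ l))
    (hd : ¬ ∃ W : (succ l).ord.ToType → Set (succ l).ord.ToType,
      ∀ X : Set (succ l).ord.ToType,
        IsStationary {d : (succ l).ord.ToType | Order.cof (Iio d) = l ∧ X ∩ Iio d = W d})
    (ι : Type u) (hι : #ι ≤ succ (succ l)) (T₀ : ι → Type u)
    [∀ i, PartialOrder (T₀ i)] [∀ i, WellFoundedLT (T₀ i)]
    (h3 : ∀ (i : ι) (t : T₀ i), IsChain (· ≤ ·) (Iio t))
    (h4 : ∀ (i : ι) (o : Ordinal.{u}), #{t : T₀ i | height t = o} ≤ succ l) :
    ∃ (T : Type u) (_ : PartialOrder T) (_ : WellFoundedLT T), IsClosedAronszajn (succ l) T ∧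
      ∀ (i : ι) (U : Set T), IsLowerSet U →
        (∀ o < (succ (succ l)).ord, ∃ t ∈ U, height t = o) → ¬ ClubEmbeds (succ l) U (T₀ i) := by
  push Not at hd
  obtain ⟨ρ⟩ : Nonempty (ι ↪ (succ (succ l)).ord.ToType) := by
    rwa [← Cardinal.le_def, mk_ord_toType]
  obtain ⟨T, h5, h6⟩ := (setup hl h1 h2).main_far (by rw [Ordinal.type_toType, mk_ord_toType]) hd
    ρ T₀ h3 (by rwa [mk_ord_toType])
  rw [mk_ord_toType] at h5 h6
  refine ⟨_, _, _, h5, fun i U h7 h8 => ?_⟩
  rintro ⟨C, f, h9, h10, h11, h12⟩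
  exact h6 i U h7 h8 C f h9 h10 h11 h12

end Pool.Agent.Results.MP_a0c85e_lc.NoUniversal
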