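import Pool.Agent.Lib.MP_a0c85e_lc.H40Main

/-!
Let `k` be uncountable with `k ^< k = k` and `2 ^ k = succ k`. If there is no Souslin tree on the
successor of `k`, then every stationary set of points of cofinality less than `k` reflects at a
point of cofinality `k`, and on its trace one sequence guesses a family of clubs that is cofinal
in the club filter of `k`.
-/

open Cardinal Set Order

namespace Pool.Agent.Results.MP_a0c85e_lc.ReflectDiamond

open Pool.Agent.Lib.MP_a0c85e_lc

universe u

theorem result (k : Cardinal.{u}) (h0 : ℵ₀ < k) (h1 : k ^< k = k) (h2 : 2 ^ k = succ k)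
    (hno : ∀ (T : Type u) [PartialOrder T] [WellFoundedLT T], ¬ IsSouslin k T)
    (S : Set (succ k).ord.ToType) (hS : IsStationary S) (hc : ∀ b ∈ S, Order.cof (Iio b) < k) :
    ∃ γ : k.ord.ToType → (succ k).ord.ToType, IsNormal γ ∧
      ∃ W : k.ord.ToType → Set k.ord.ToType, ∀ D : Set k.ord.ToType, IsClub D →
        ∃ C ⊆ D, IsClub C ∧ IsStationary {d : k.ord.ToType | γ d ∈ S ∧ C ∩ Iio d = W d} := by
  by_contra! hW
  obtain ⟨T, hT⟩ := (set2 h0 h1 h2).main (by rw [Ordinal.type_toType, mk_ord_toType]) hS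
    (by rwa [mk_ord_toType]) fun a γ hγ => hW γ hγ.isNormal
  rw [mk_ord_toType] at hT
  exact hno _ hT

end Pool.Agent.Results.MP_a0c85e_lc.ReflectDiamond
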